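import Pool.Agent.W2helper8.ZQ.Stm

/-!
Piece KA of project ZQ (helper8), `MP_aa9ae4_nt`: from the double sum to the single sum.
-/

set_option autoImplicit false

namespace Pool.Agent.W2helper51.ZQ

open Finset Filter Topology MeasureTheory
open Pool.Agent.W2helper8.ZQ

lemma sq_sum_Icc (M : ℕ) : ∑ k ∈ Icc 1 M, 1 / (k : ℝ) ^ 2 ≤ 2 - 1 / (M : ℝ) := by
  induction M with
  | zero => norm_num
  | succ M ih =>
    rw [Finset.sum_Icc_succ_top (by omega)]
    rcases Nat.eq_zero_or_pos M with h | h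
    · subst h; simp; norm_num
    · have h1 : (0 : ℝ) < (M : ℝ) := by exact_mod_cast h
      have h2 : (0 : ℝ) < (M : ℝ) + 1 := by positivity
      push_cast
      have h4 : (1 : ℝ) / ((M : ℝ) + 1) ^ 2 ≤ 1 / M - 1 / (M + 1) := by
        rw [div_sub_div _ _ h1.ne' h2.ne', div_le_div_iff₀ (by positivity) (by positivity)]
        nlinarith
      linarith

lemma sq_sum (A : Finset ℕ) (hA : ∀ k ∈ A, 1 ≤ k) : ∑ k ∈ A, 1 / (k : ℝ) ^ 2 ≤ 2 := by
  have h1 : A ⊆ Icc 1 (A.sup id) := by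
    intro k hk
    exact mem_Icc.2 ⟨hA k hk, Finset.le_sup (f := id) hk⟩
  have h2 := Finset.sum_le_sum_of_subset_of_nonneg (f := fun k : ℕ => 1 / (k : ℝ) ^ 2) h1
    (fun _ _ _ => by positivity)
  have h3 := sq_sum_Icc (A.sup id)
  have h4 : (0 : ℝ) ≤ 1 / ((A.sup id : ℕ) : ℝ) := by positivity
  linarith

lemma sq_sum_int (N : ℕ) (a : ℤ) :
    ∑ m ∈ Icc 1 N, (if (m : ℤ) ≠ a then 1 / ((m : ℝ) - a) ^ 2 else 0) ≤ 4 := by
  rw [← Finset.sum_filter]
  have hsplit : (Icc 1 N).filter (fun m : ℕ => (m : ℤ) ≠ a) =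
      (Icc 1 N).filter (fun m : ℕ => (m : ℤ) < a) ∪ (Icc 1 N).filter (fun m : ℕ => a < (m : ℤ)) := by
    ext m
    simp only [mem_filter, mem_union]
    constructor
    · rintro ⟨h1, h2⟩
      rcases lt_or_gt_of_ne h2 with h | h
      · exact Or.inl ⟨h1, h⟩
      · exact Or.inr ⟨h1, h⟩
    · rintro (⟨h1, h2⟩ | ⟨h1, h2⟩)
      · exact ⟨h1, by omega⟩
      · exact ⟨h1, by omega⟩
  have hd : Disjoint ((Icc 1 N).filter (fun m : ℕ => (m : ℤ) < a))
      ((Icc 1 N).filter (fun m : ℕ => a < (m : ℤ))) := by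
    rw [Finset.disjoint_filter]
    intro m _ h1 h2
    omega
  rw [hsplit, Finset.sum_union hd]
  have e1 : ∑ m ∈ (Icc 1 N).filter (fun m : ℕ => (m : ℤ) < a), 1 / ((m : ℝ) - a) ^ 2 ≤ 2 := by
    have h := Finset.sum_image (s := (Icc 1 N).filter (fun m : ℕ => (m : ℤ) < a))
      (g := fun m : ℕ => (a - m).toNat) (f := fun k : ℕ => 1 / (k : ℝ) ^ 2) (by
        intro m hm m' hm' he
        simp only [coe_filter, Set.mem_ofPred_eq] at hm hm'
        simp only at he
        omega)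
    have h2 := sq_sum (((Icc 1 N).filter (fun m : ℕ => (m : ℤ) < a)).image
      (fun m : ℕ => (a - m).toNat)) (by
        intro k hk
        simp only [mem_image, mem_filter] at hk
        obtain ⟨m, ⟨_, hm⟩, rfl⟩ := hk
        omega)
    rw [h] at h2
    refine le_trans (le_of_eq (Finset.sum_congr rfl fun m hm => ?_)) h2
    simp only [mem_filter] at hm
    have h3 : (((a - m).toNat : ℕ) : ℝ) = (a : ℝ) - m := by
      have : (((a - m).toNat : ℕ) : ℤ) = a - m := Int.toNat_of_nonneg (by omega)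
      have h4 := congrArg (fun z : ℤ => (z : ℝ)) this
      push_cast at h4
      exact_mod_cast h4
    rw [h3]
    congr 1
    ring
  have e2 : ∑ m ∈ (Icc 1 N).filter (fun m : ℕ => a < (m : ℤ)), 1 / ((m : ℝ) - a) ^ 2 ≤ 2 := by
    have h := Finset.sum_image (s := (Icc 1 N).filter (fun m : ℕ => a < (m : ℤ)))
      (g := fun m : ℕ => ((m : ℤ) - a).toNat) (f := fun k : ℕ => 1 / (k : ℝ) ^ 2) (by
        intro m hm m' hm' he
        simp only [coe_filter, Set.mem_ofPred_eq] at hm hm'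
        simp only at he
        omega)
    have h2 := sq_sum (((Icc 1 N).filter (fun m : ℕ => a < (m : ℤ))).image
      (fun m : ℕ => ((m : ℤ) - a).toNat)) (by
        intro k hk
        simp only [mem_image, mem_filter] at hk
        obtain ⟨m, ⟨_, hm⟩, rfl⟩ := hk
        omega)
    rw [h] at h2
    refine le_trans (le_of_eq (Finset.sum_congr rfl fun m hm => ?_)) h2
    simp only [mem_filter] at hm
    have h3 : ((((m : ℤ) - a).toNat : ℕ) : ℝ) = (m : ℝ) - a := by
      have : ((((m : ℤ) - a).toNat : ℕ) : ℤ) = m - a := Int.toNat_of_nonneg (by omega)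
      have h4 := congrArg (fun z : ℤ => (z : ℝ)) this
      push_cast at h4
      exact_mod_cast h4
    rw [h3]
  linarith

lemma log_lower {r : ℝ} (h1 : 1 / 2 ≤ r) (h2 : r ≤ 2) : |r - 1| / 2 ≤ |Real.log r| := by
  have h0 : 0 < r := by linarith
  rcases le_total 1 r with h | h
  · have h3 := Real.one_sub_inv_le_log_of_pos h0
    rw [abs_of_nonneg (by linarith), abs_of_nonneg (Real.log_nonneg h)]
    refine le_trans ?_ h3
    have : 1 - r⁻¹ = (r - 1) / r := by field_simp
    rw [this]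
    exact div_le_div_of_nonneg_left (by linarith) h0 h2
  · have h3 := Real.log_le_sub_one_of_pos h0
    rw [abs_of_nonpos (by linarith), abs_of_nonpos (Real.log_nonpos h0.le h)]
    linarith

lemma log_far {r : ℝ} (h0 : 0 < r) (h : r < 1 / 2 ∨ 2 < r) : 1 / 2 ≤ |Real.log r| := by
  rcases h with h | h
  · have h3 := Real.log_le_sub_one_of_pos h0
    rw [abs_of_nonpos (by linarith)]
    linarith
  · have h3 := Real.one_sub_inv_le_log_of_pos h0
    have h4 : r⁻¹ ≤ 1 / 2 := by
      rw [inv_eq_one_div]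
      exact div_le_div_of_nonneg_left (by norm_num) (by norm_num) h.le
    rw [abs_of_nonneg (by linarith)]
    linarith

lemma sqrt_sum (N : ℕ) : ∑ m ∈ Icc 1 N, 1 / Real.sqrt m ≤ 2 * Real.sqrt N := by
  induction N with
  | zero => simp
  | succ N ih =>
    rw [Finset.sum_Icc_succ_top (by omega)]
    have h1 : 0 < Real.sqrt ((N + 1 : ℕ) : ℝ) := Real.sqrt_pos.2 (by positivity)
    have h2 : Real.sqrt (N : ℝ) ≤ Real.sqrt ((N + 1 : ℕ) : ℝ) :=
      Real.sqrt_le_sqrt (by push_cast; linarith)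
    have h3 : Real.sqrt ((N + 1 : ℕ) : ℝ) ^ 2 = N + 1 := by
      rw [Real.sq_sqrt (by positivity)]; push_cast; ring
    have h4 : Real.sqrt (N : ℝ) ^ 2 = N := Real.sq_sqrt (by positivity)
    have h5 : 1 / Real.sqrt ((N + 1 : ℕ) : ℝ) ≤ 2 * (Real.sqrt ((N + 1 : ℕ) : ℝ) - Real.sqrt N) := by
      rw [div_le_iff₀ h1]
      nlinarith [Real.sqrt_nonneg (N : ℝ)]
    linarith

/-- the bound for one term -/
lemma term_le (T x : ℝ) (m n N : ℕ) (hT : 2 ≤ T) (hx : 1 ≤ x) (hm : 1 ≤ m) (hmN : m ≤ N)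
    (hn : 1 ≤ n) :
    1 / (Real.sqrt m * Real.sqrt n) *
      (1 / (1 + (T * (Real.log x + Real.log n - Real.log m)) ^ 2)) ≤
    4 / T ^ 2 * ((1 / Real.sqrt m) * (1 / Real.sqrt n)) +
    (if x * n ≤ 2 * N ∧ (m : ℤ) = round (x * n) then
      2 * (1 / (n * Real.sqrt x) * (1 / (1 + (T * dz (x * n) / (2 * (x * n))) ^ 2))) else 0) +
    (if x * n ≤ 2 * N then
      32 * x * Real.sqrt x * n / T ^ 2 *
        (if (m : ℤ) ≠ round (x * n) then 1 / ((m : ℝ) - (round (x * n) : ℤ)) ^ 2 else 0) else 0) := by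
  have hm0 : (0 : ℝ) < m := by exact_mod_cast hm
  have hn0 : (0 : ℝ) < n := by exact_mod_cast hn
  have hx0 : 0 < x := by linarith
  have hy0 : 0 < x * n := by positivity
  have hsm : 0 < Real.sqrt m := Real.sqrt_pos.2 hm0
  have hsn : 0 < Real.sqrt n := Real.sqrt_pos.2 hn0
  have hsx : 0 < Real.sqrt x := Real.sqrt_pos.2 hx0
  have hT0 : 0 < T := by linarith
  have hL : Real.log x + Real.log n - Real.log m = - Real.log (m / (x * n)) := by
    rw [Real.log_div hm0.ne' hy0.ne', Real.log_mul hx0.ne' hn0.ne']; ring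
  rw [hL]
  have hnn2 : 0 ≤ (if x * n ≤ 2 * N ∧ (m : ℤ) = round (x * n) then
      2 * (1 / (n * Real.sqrt x) * (1 / (1 + (T * dz (x * n) / (2 * (x * n))) ^ 2))) else 0) := by
    split_ifs <;> positivity
  have hnn3 : 0 ≤ (if x * n ≤ 2 * N then
      32 * x * Real.sqrt x * n / T ^ 2 *
        (if (m : ℤ) ≠ round (x * n) then 1 / ((m : ℝ) - (round (x * n) : ℤ)) ^ 2 else 0) else 0) := by
    split_ifs <;> positivity
  have hnn1 : 0 ≤ 4 / T ^ 2 * ((1 / Real.sqrt m) * (1 / Real.sqrt n)) := by positivity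
  by_cases hfar : (m : ℝ) / (x * n) < 1 / 2 ∨ 2 < (m : ℝ) / (x * n)
  · have h1 := log_far (div_pos hm0 hy0) hfar
    have h2 : 1 / (1 + (T * -Real.log (m / (x * n))) ^ 2) ≤ 4 / T ^ 2 := by
      rw [div_le_div_iff₀ (by positivity) (by positivity)]
      have h3 : (1 / 2) ^ 2 ≤ |Real.log (m / (x * n))| ^ 2 := by
        exact pow_le_pow_left₀ (by norm_num) h1 2
      rw [sq_abs] at h3
      nlinarith [mul_le_mul_of_nonneg_left h3 (sq_nonneg T)]
    have h3 : 1 / (Real.sqrt m * Real.sqrt n) = (1 / Real.sqrt m) * (1 / Real.sqrt n) := by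
      rw [one_div_mul_one_div]
    rw [h3]
    have h4 := mul_le_mul_of_nonneg_left h2
      (by positivity : 0 ≤ (1 / Real.sqrt (m : ℝ)) * (1 / Real.sqrt (n : ℝ)))
    linarith
  · push Not at hfar
    obtain ⟨hf1, hf2⟩ := hfar
    have hml : x * n ≤ 2 * m := by
      rw [le_div_iff₀ hy0] at hf1; linarith
    have hxN : x * n ≤ 2 * N := by
      have : (m : ℝ) ≤ N := by exact_mod_cast hmN
      linarith
    have h1 := log_lower hf1 hf2
    have h1' : |(m : ℝ) - x * n| / (2 * (x * n)) ≤ |Real.log (m / (x * n))| := by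
      refine le_trans (le_of_eq ?_) h1
      have : (m : ℝ) / (x * n) - 1 = (m - x * n) / (x * n) := by field_simp
      rw [this, abs_div, abs_of_pos hy0]
      field_simp
    -- the coefficient
    have hco : 1 / (Real.sqrt m * Real.sqrt n) ≤ 2 * (1 / (n * Real.sqrt x)) := by
      have h5 : Real.sqrt n * Real.sqrt n = n := Real.mul_self_sqrt hn0.le
      have h6 : Real.sqrt x * Real.sqrt n ≤ 2 * Real.sqrt m := by
        rw [← Real.sqrt_mul hx0.le]
        have h7 : Real.sqrt (x * n) ≤ Real.sqrt (4 * m) := Real.sqrt_le_sqrt (by linarith)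
        have h8 : Real.sqrt (4 * m) = 2 * Real.sqrt m := by
          rw [Real.sqrt_mul (by norm_num), show (4 : ℝ) = 2 ^ 2 by norm_num,
            Real.sqrt_sq (by norm_num)]
        linarith
      rw [mul_one_div, div_le_div_iff₀ (by positivity) (by positivity)]
      nlinarith [mul_le_mul_of_nonneg_left h6 hsn.le]
    by_cases hmr : (m : ℤ) = round (x * n)
    · have h2 : 1 / (1 + (T * -Real.log (m / (x * n))) ^ 2) ≤
          1 / (1 + (T * dz (x * n) / (2 * (x * n))) ^ 2) := by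
        have h3 : dz (x * n) = |(m : ℝ) - x * n| := by
          unfold dz
          rw [← hmr, abs_sub_comm]
          norm_cast
        refine div_le_div_of_nonneg_left (by norm_num) (by positivity) ?_
        rw [h3, mul_div_assoc, mul_pow, mul_pow, neg_sq, ← sq_abs (Real.log _)]
        have h4 := pow_le_pow_left₀ (by positivity) h1' 2
        nlinarith [mul_le_mul_of_nonneg_left h4 (sq_nonneg T)]
      rw [if_pos ⟨hxN, hmr⟩]
      have h5 := mul_le_mul hco h2 (by positivity) (by positivity)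
      linarith
    · rw [if_pos hxN, if_pos hmr]
      have hra : |x * n - (round (x * n) : ℤ)| ≤ 1 / 2 := abs_sub_round (x * n)
      have hint : (1 : ℝ) ≤ |(m : ℝ) - (round (x * n) : ℤ)| := by
        have h6 : (1 : ℤ) ≤ |(m : ℤ) - round (x * n)| := Int.one_le_abs (sub_ne_zero.2 hmr)
        have h7 : ((1 : ℤ) : ℝ) ≤ ((|(m : ℤ) - round (x * n)| : ℤ) : ℝ) := by exact_mod_cast h6
        push_cast at h7
        exact h7
      have htri : |(m : ℝ) - (round (x * n) : ℤ)| ≤ |(m : ℝ) - x * n| + |x * n - (round (x * n) : ℤ)| :=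
        abs_sub_le _ _ _
      have hh : |(m : ℝ) - (round (x * n) : ℤ)| / 2 ≤ |(m : ℝ) - x * n| := by linarith
      have hD0 : 0 < |(m : ℝ) - (round (x * n) : ℤ)| := by linarith
      have h2 : 1 / (1 + (T * -Real.log (m / (x * n))) ^ 2) ≤
          16 * (x * n) ^ 2 / T ^ 2 * (1 / ((m : ℝ) - (round (x * n) : ℤ)) ^ 2) := by
        have h3 : |(m : ℝ) - (round (x * n) : ℤ)| / (4 * (x * n)) ≤ |Real.log (m / (x * n))| := by
          refine le_trans ?_ h1'
          rw [div_le_div_iff₀ (by positivity) (by positivity)]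
          nlinarith [mul_le_mul_of_nonneg_right hh hy0.le]
        have h4 := pow_le_pow_left₀ (by positivity) h3 2
        rw [sq_abs, div_pow, sq_abs] at h4
        have h5 : 0 < ((m : ℝ) - (round (x * n) : ℤ)) ^ 2 := by
          rw [← sq_abs]; positivity
        have h6 : (T * -Real.log (m / (x * n))) ^ 2 = T ^ 2 * Real.log (m / (x * n)) ^ 2 := by ring
        rw [h6]
        have h7 : T ^ 2 * (((m : ℝ) - (round (x * n) : ℤ)) ^ 2 / (4 * (x * n)) ^ 2) ≤
            1 + T ^ 2 * Real.log (m / (x * n)) ^ 2 := by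
          have := mul_le_mul_of_nonneg_left h4 (sq_nonneg T)
          linarith
        have h8 := one_div_le_one_div_of_le (by positivity) h7
        refine le_trans h8 (le_of_eq ?_)
        field_simp
        ring
      have h5 := mul_le_mul hco h2 (by positivity) (by positivity)
      have h6 : 2 * (1 / (n * Real.sqrt x)) *
          (16 * (x * n) ^ 2 / T ^ 2 * (1 / ((m : ℝ) - (round (x * n) : ℤ)) ^ 2)) =
          32 * x * Real.sqrt x * n / T ^ 2 * (1 / ((m : ℝ) - (round (x * n) : ℤ)) ^ 2) := by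
        have h7 : x = Real.sqrt x * Real.sqrt x := (Real.mul_self_sqrt hx0.le).symm
        have h8 : (x * n) ^ 2 / (n * Real.sqrt x) = x * Real.sqrt x * n := by
          rw [div_eq_iff (by positivity)]
          have : x * Real.sqrt x * n * (n * Real.sqrt x) = x * (Real.sqrt x * Real.sqrt x) * n ^ 2 := by
            ring
          rw [this, ← h7]; ring
        calc 2 * (1 / (n * Real.sqrt x)) *
            (16 * (x * n) ^ 2 / T ^ 2 * (1 / ((m : ℝ) - (round (x * n) : ℤ)) ^ 2))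
            = 32 * ((x * n) ^ 2 / (n * Real.sqrt x)) / T ^ 2 *
              (1 / ((m : ℝ) - (round (x * n) : ℤ)) ^ 2) := by ring
          _ = _ := by rw [h8]; ring
      rw [h6] at h5
      have hnn2' : 0 ≤ (if x * n ≤ 2 * N ∧ (m : ℤ) = round (x * n) then
        2 * (1 / (n * Real.sqrt x) * (1 / (1 + (T * dz (x * n) / (2 * (x * n))) ^ 2))) else 0) :=
        hnn2
      linarith

theorem p_ka : S_KA := by
  refine ⟨2000000, by norm_num, ?_⟩
  intro T x hT hx
  have hT0 : 0 < T := by linarith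
  have hx0 : 0 < x := by linarith
  set N := Ns T with hN
  have hN1 : (N : ℝ) ≤ 5 * T := by
    have := (Nat.ceil_lt_add_one (by linarith : (0 : ℝ) ≤ 4 * T)).le
    have h2 : (N : ℝ) ≤ 4 * T + 1 := this
    linarith
  have hN0 : (0 : ℝ) ≤ N := by positivity
  unfold KS NS
  rw [← hN]
  -- bound all terms
  have h1 : ∑ m ∈ Icc 1 N, ∑ n ∈ Icc 1 N, 1 / (Real.sqrt m * Real.sqrt n) *
      (1 / (1 + (T * (Real.log x + Real.log n - Real.log m)) ^ 2)) ≤
      ∑ m ∈ Icc 1 N, ∑ n ∈ Icc 1 N, (4 / T ^ 2 * ((1 / Real.sqrt m) * (1 / Real.sqrt n)) +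
    (if x * n ≤ 2 * N ∧ (m : ℤ) = round (x * n) then
      2 * (1 / (n * Real.sqrt x) * (1 / (1 + (T * dz (x * n) / (2 * (x * n))) ^ 2))) else 0) +
    (if x * n ≤ 2 * N then
      32 * x * Real.sqrt x * n / T ^ 2 *
        (if (m : ℤ) ≠ round (x * n) then 1 / ((m : ℝ) - (round (x * n) : ℤ)) ^ 2 else 0) else 0)) := by
    refine Finset.sum_le_sum fun m hm => Finset.sum_le_sum fun n hn => ?_
    rw [mem_Icc] at hm hn
    exact term_le T x m n N hT hx hm.1 hm.2 hn.1
  refine h1.trans ?_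
  simp only [Finset.sum_add_distrib]
  -- the first sum
  have s1 : ∑ m ∈ Icc 1 N, ∑ n ∈ Icc 1 N, 4 / T ^ 2 * ((1 / Real.sqrt m) * (1 / Real.sqrt n)) ≤ 40 := by
    have e : ∑ m ∈ Icc 1 N, ∑ n ∈ Icc 1 N, 4 / T ^ 2 * ((1 / Real.sqrt (m : ℝ)) * (1 / Real.sqrt (n : ℝ)))
        = 4 / T ^ 2 * ((∑ m ∈ Icc 1 N, 1 / Real.sqrt (m : ℝ)) * ∑ n ∈ Icc 1 N, 1 / Real.sqrt (n : ℝ)) := by
      rw [Finset.sum_mul_sum, Finset.mul_sum]
      refine Finset.sum_congr rfl fun m _ => ?_
      rw [Finset.mul_sum]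
    rw [e]
    have h2 := sqrt_sum N
    have h3 : 0 ≤ ∑ m ∈ Icc 1 N, 1 / Real.sqrt (m : ℝ) := Finset.sum_nonneg fun _ _ => by positivity
    have h4 := mul_le_mul h2 h2 h3 (by positivity)
    have h5 : 2 * Real.sqrt N * (2 * Real.sqrt N) = 4 * N := by
      have := Real.mul_self_sqrt hN0
      nlinarith
    rw [h5] at h4
    have h6 : 4 / T ^ 2 * (4 * N) ≤ 4 / T ^ 2 * (20 * T) :=
      mul_le_mul_of_nonneg_left (by linarith) (by positivity)
    have h7 : 4 / T ^ 2 * (20 * T) = 80 / T := by field_simp; norm_num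
    have h8 : 80 / T ≤ 40 := by rw [div_le_iff₀ hT0]; linarith
    have h9 := mul_le_mul_of_nonneg_left h4 (by positivity : 0 ≤ 4 / T ^ 2)
    linarith
  -- the second sum
  have s2 : ∑ m ∈ Icc 1 N, ∑ n ∈ Icc 1 N, (if x * n ≤ 2 * N ∧ (m : ℤ) = round (x * n) then
      2 * (1 / (n * Real.sqrt x) * (1 / (1 + (T * dz (x * n) / (2 * (x * n))) ^ 2))) else 0) ≤
      2 * ∑ n ∈ (Icc 1 N).filter (fun n : ℕ => x * n ≤ 2 * N), 1 / (n * Real.sqrt x) *
        (1 / (1 + (T * dz (x * n) / (2 * (x * n))) ^ 2)) := by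
    rw [Finset.sum_comm, Finset.mul_sum, Finset.sum_filter]
    refine Finset.sum_le_sum fun n _ => ?_
    by_cases hxn : x * n ≤ 2 * N
    · simp only [hxn, true_and, if_true]
      rw [← Finset.sum_filter, Finset.sum_const, nsmul_eq_mul]
      have hc : ((Icc 1 N).filter (fun m : ℕ => (m : ℤ) = round (x * n))).card ≤ 1 := by
        rw [Finset.card_le_one]
        intro a ha b hb
        simp only [mem_filter] at ha hb
        have := ha.2.trans hb.2.symm
        exact_mod_cast this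
      have hc' : (((Icc 1 N).filter (fun m : ℕ => (m : ℤ) = round (x * n))).card : ℝ) ≤ 1 := by
        exact_mod_cast hc
      have hp : 0 ≤ 2 * (1 / (n * Real.sqrt x) * (1 / (1 + (T * dz (x * n) / (2 * (x * n))) ^ 2))) := by
        positivity
      nlinarith
    · simp [hxn]
  -- the third sum
  have s3 : ∑ m ∈ Icc 1 N, ∑ n ∈ Icc 1 N, (if x * n ≤ 2 * N then
      32 * x * Real.sqrt x * n / T ^ 2 *
        (if (m : ℤ) ≠ round (x * n) then 1 / ((m : ℝ) - (round (x * n) : ℤ)) ^ 2 else 0) else 0) ≤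
      12800 := by
    rw [Finset.sum_comm]
    have h2 : ∀ n ∈ Icc 1 N, ∑ m ∈ Icc 1 N, (if x * n ≤ 2 * N then
      32 * x * Real.sqrt x * n / T ^ 2 *
        (if (m : ℤ) ≠ round (x * n) then 1 / ((m : ℝ) - (round (x * n) : ℤ)) ^ 2 else 0) else 0) ≤
        (if x * n ≤ 2 * N then 128 * x * Real.sqrt x / T ^ 2 * (2 * N / x) else 0) := by
      intro n _
      by_cases hxn : x * n ≤ 2 * N
      · simp only [hxn, if_true]
        rw [← Finset.mul_sum]
        have h3 := sq_sum_int N (round (x * n))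
        have h4 : (0 : ℝ) ≤ 32 * x * Real.sqrt x * n / T ^ 2 := by positivity
        have h5 := mul_le_mul_of_nonneg_left h3 h4
        refine h5.trans ?_
        have h6 : (n : ℝ) ≤ 2 * N / x := by rw [le_div_iff₀ hx0]; linarith
        have h7 : (32 * x * Real.sqrt x * n / T ^ 2) * 4 = 128 * x * Real.sqrt x / T ^ 2 * n := by ring
        rw [h7]
        exact mul_le_mul_of_nonneg_left h6 (by positivity)
      · simp [hxn]
    refine (Finset.sum_le_sum h2).trans ?_
    rw [← Finset.sum_filter, Finset.sum_const, nsmul_eq_mul]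
    have hc : (((Icc 1 N).filter (fun n : ℕ => x * n ≤ 2 * N)).card : ℝ) ≤ 2 * N / x := by
      have h3 : (Icc 1 N).filter (fun n : ℕ => x * n ≤ 2 * N) ⊆ Icc 1 ⌊2 * (N : ℝ) / x⌋₊ := by
        intro n hn
        simp only [mem_filter, mem_Icc] at hn ⊢
        refine ⟨hn.1.1, Nat.le_floor ?_⟩
        rw [le_div_iff₀ hx0]
        linarith [hn.2]
      have h4 := Finset.card_le_card h3
      rw [Nat.card_Icc, Nat.add_sub_cancel] at h4
      have h5 : ((⌊2 * (N : ℝ) / x⌋₊ : ℕ) : ℝ) ≤ 2 * N / x := Nat.floor_le (by positivity)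
      have h6 : (((Icc 1 N).filter (fun n : ℕ => x * n ≤ 2 * N)).card : ℝ) ≤ (⌊2 * (N : ℝ) / x⌋₊ : ℕ) := by
        exact_mod_cast h4
      linarith
    have h8 : Real.sqrt x ≤ x := by
      rw [Real.sqrt_le_left (by linarith)]
      nlinarith
    have h9 : (0 : ℝ) ≤ 128 * x * Real.sqrt x / T ^ 2 * (2 * N / x) := by positivity
    have h10 := mul_le_mul_of_nonneg_right hc h9
    refine h10.trans ?_
    have h11 : 2 * (N : ℝ) / x * (128 * x * Real.sqrt x / T ^ 2 * (2 * N / x)) =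
        512 * (N : ℝ) ^ 2 / T ^ 2 * (Real.sqrt x / x) := by
      field_simp
      ring
    rw [h11]
    have h12 : Real.sqrt x / x ≤ 1 := by rw [div_le_one hx0]; exact h8
    have h13 : 512 * (N : ℝ) ^ 2 / T ^ 2 ≤ 12800 := by
      rw [div_le_iff₀ (by positivity)]
      nlinarith [mul_le_mul hN1 hN1 hN0 (by positivity)]
    have h14 : 0 ≤ Real.sqrt x / x := by positivity
    calc 512 * (N : ℝ) ^ 2 / T ^ 2 * (Real.sqrt x / x) ≤ 12800 * 1 :=
          mul_le_mul h13 h12 h14 (by norm_num)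
      _ = 12800 := by norm_num
  have hNS : 0 ≤ ∑ n ∈ (Icc 1 N).filter (fun n : ℕ => x * n ≤ 2 * N), 1 / (n * Real.sqrt x) *
        (1 / (1 + (T * dz (x * n) / (2 * (x * n))) ^ 2)) :=
    Finset.sum_nonneg fun _ _ => by positivity
  linarith

end Pool.Agent.W2helper51.ZQ
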