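import Pool.Agent.W2helper8.ZQ.Stm

/-!
Piece KSB of project ZQ (helper8), `MP_aa9ae4_nt`: the bound for the double sum.
-/

set_option autoImplicit false

namespace Pool.Agent.W2helper51.ZQ

open Pool.Agent.W2helper8.ZQ

theorem p_ksb (h1 : S_KA) (h2 : S_KC) (h3 : S_KD) : S_KSB := by
  obtain ⟨K1, hK1, hA⟩ := h1
  obtain ⟨K2, hK2, hC⟩ := h2
  refine ⟨K1 * (1 + K2), by positivity, ?_⟩
  intro T x hT hx hxT
  have hT0 : 0 < T := by linarith
  have hT1 : (1 : ℝ) ≤ T ^ (1 / 4 : ℝ) := Real.one_le_rpow (by linarith) (by norm_num)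
  obtain ⟨h, k, hh, hk, hkQ, hd, hco, hmin⟩ := h3 x (T ^ (1 / 4 : ℝ)) hx hT1
  refine ⟨h, k, ⟨hh, hk, ?_, hco⟩, ?_⟩
  · refine hd.trans (le_of_eq ?_)
    rw [Real.rpow_neg hT0.le, one_div]
  · have e1 := hA T x hT hx
    have e2 := hC T x k hT hx hxT hk hkQ hmin
    have hlog : 0 ≤ Real.log T / (k * Real.sqrt x) :=
      div_nonneg (Real.log_nonneg (by linarith)) (by positivity)
    have e3 := mul_le_mul_of_nonneg_left e2 hK1.le
    nlinarith [mul_nonneg hK1.le hlog]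

end Pool.Agent.W2helper51.ZQ
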